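import Pool.Agent.H48.ER.Targets

/-!
# MP_816b90_co, row M1: minimal counterexamples
-/

set_option autoImplicit false

open Pool.Agent.H48.ER

namespace Pool.Agent.H62.ER

/-- (M1) -/
theorem pf_M1 (hDEL : T_DEL) (hLIF : T_LIF) : T_M1 := by
  intro V _ G S hmc
  have hlt : ∀ v ∈ S, (S \ {v}).ncard < S.ncard := fun v hv =>
    Set.ncard_lt_ncard ⟨Set.diff_subset, fun h => (h hv).2 rfl⟩ (Set.toFinite _)
  have hsup : ∀ v, Sup (del G v) (S \ {v}) := fun v a b hab =>
    ⟨⟨(hmc.sup a b hab.2.2).1, hab.1⟩, ⟨(hmc.sup a b hab.2.2).2, hab.2.1⟩⟩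
  have hle : ∀ v, del G v ≤ G := fun v a b hab => hab.2.2
  have hCT : ∀ v ∈ S, CT (del G v) (S \ {v}) := fun v hv =>
    hmc.min (del G v) (S \ {v}) (hsup v) (hDEL V G v hmc.noh hmc.nop).1
      (hDEL V G v hmc.noh hmc.nop).2 (hmc.tw.mono (hle v)) (hlt v hv)
  refine ⟨?_, ?_⟩
  · intro v hv
    by_contra hno
    apply hmc.nct
    refine hLIF V G S v hmc.sup hv ?_ (hCT v hv)
    intro u w hu hw huw
    by_contra hadj
    exact hno ⟨u, w, hu, hw, huw, hadj⟩
  · intro u hu v hv huv hadj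
    by_contra hno
    have hN : ∀ w, G.Adj u w → G.Adj v w := by
      intro w hw
      by_contra hvw
      exact hno ⟨w, hw, hvw⟩
    have hev : EvP G v u := by
      refine ⟨huv.symm, fun h => hadj h.symm, ?_⟩
      rintro n R ⟨g, g0, gn, _, ga, _⟩
      have hn : n ≠ 0 := by
        intro e
        subst e
        exact huv (gn.symm.trans g0)
      have h1 : G.Adj (g (n - 1)) (g n) :=
        (ga (n - 1) n (by omega) le_rfl).2 (Or.inl (by omega))
      rw [gn] at h1
      have h2 : G.Adj (g 0) (g (n - 1)) := by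
        rw [g0]; exact hN _ h1.symm
      have h3 := (ga 0 (n - 1) (by omega) (by omega)).1 h2
      have h4 : n = 2 := by omega
      rw [h4]
      exact even_two
    have heq : ctr G v u = del G u := by
      ext a b
      constructor
      · rintro ⟨hab, ha, hb, h | ⟨h, h'⟩ | ⟨h, h'⟩⟩
        · exact ⟨ha, hb, h⟩
        · subst h
          exact ⟨ha, hb, hN b h'⟩
        · subst h
          exact ⟨ha, hb, (hN a h'.symm).symm⟩
      · rintro ⟨ha, hb, h⟩
        exact ⟨h.ne, ha, hb, Or.inl h⟩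
    apply hmc.nct
    refine CT.step G S v u hv hu hev ?_
    rw [heq]
    exact hCT u hu

end Pool.Agent.H62.ER
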