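import Pool.Agent.H48.ER.Targets

/-!
# MP_816b90_co, row SB1: another piece is inside or outside of the prism
-/

set_option autoImplicit false

open Pool.Agent.H48.ER

namespace Pool.Agent.H62.ER

variable {V : Type} {G : SimpleGraph V}

theorem third (k l : Fin 3) (h : k ≠ l) :
    ∃ m : Fin 3, m ≠ k ∧ m ≠ l ∧ ∀ j, j = k ∨ j = l ∨ j = m := by
  revert k l; decide

theorem others (i : Fin 3) : ∃ j k : Fin 3, j ≠ i ∧ k ≠ i ∧ j ≠ k := by
  revert i; decide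

theorem Cn_singleton (v : V) : Cn G {v} := by
  intro X hX hne _
  obtain ⟨x, hx⟩ := hne
  have hxv : x = v := Set.mem_singleton_iff.1 (hX hx)
  subst hxv
  exact Set.Subset.antisymm hX (Set.singleton_subset_iff.2 hx)

theorem a_inj {a b : Fin 3 → V} {n : Fin 3 → ℕ} {P : Fin 3 → Set V} (h : Prism G a b n P)
    {i j : Fin 3} (hij : i ≠ j) : a i ≠ a j := h.ne_of_mem hij (h.a_mem i) (h.a_mem j)

/-- a vertex of a prism with at most two neighbours in the prism is no corner -/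
theorem lemA (hDEG : T_DEG) {a b : Fin 3 → V} {n : Fin 3 → ℕ} {P : Fin 3 → Set V}
    (h : Prism G a b n P) {v x y : V} (hv : v ∈ ver P)
    (hxy : ∀ g ∈ ver P, G.Adj v g → g = x ∨ g = y) :
    ∃ μ, v ∈ P μ ∧ x ∈ P μ ∧ y ∈ P μ ∧ x ≠ y ∧ ∀ i, v ≠ a i ∧ v ≠ b i := by
  have key : ∀ (a b : Fin 3 → V) (n : Fin 3 → ℕ), Prism G a b n P → ∀ i, v ≠ a i := by
    intro a b n h i e
    obtain ⟨hA, _, _⟩ := hDEG V G a b n P h
    obtain ⟨r, hr, hra, hrg⟩ := hA i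
    obtain ⟨j, k, hj, hk, hjk⟩ := others i
    have h1 : r = x ∨ r = y := hxy r ⟨i, hr⟩ (by rw [e]; exact (hrg r ⟨i, hr⟩).2 (Or.inl rfl))
    have h2 : a j = x ∨ a j = y := hxy (a j) ⟨j, h.a_mem j⟩
      (by rw [e]; exact (hrg _ ⟨j, h.a_mem j⟩).2 (Or.inr ⟨j, hj, rfl⟩))
    have h3 : a k = x ∨ a k = y := hxy (a k) ⟨k, h.a_mem k⟩
      (by rw [e]; exact (hrg _ ⟨k, h.a_mem k⟩).2 (Or.inr ⟨k, hk, rfl⟩))
    have n1 : r ≠ a j := h.ne_of_mem hj.symm hr (h.a_mem j)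
    have n2 : r ≠ a k := h.ne_of_mem hk.symm hr (h.a_mem k)
    have n3 : a j ≠ a k := a_inj h hjk
    rcases h1 with h1 | h1 <;> rcases h2 with h2 | h2 <;> rcases h3 with h3 | h3
    · exact n1 (h1.trans h2.symm)
    · exact n1 (h1.trans h2.symm)
    · exact n2 (h1.trans h3.symm)
    · exact n3 (h2.trans h3.symm)
    · exact n3 (h2.trans h3.symm)
    · exact n2 (h1.trans h3.symm)
    · exact n1 (h1.trans h2.symm)
    · exact n1 (h1.trans h2.symm)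
  obtain ⟨μ, hμ⟩ := hv
  have ha : ∀ i, v ≠ a i := key a b n h
  have hb : ∀ i, v ≠ b i := key b a n h.flip
  obtain ⟨_, _, hI⟩ := hDEG V G a b n P h
  obtain ⟨u, hu, w, hw, huw, _, hg⟩ := hI μ v hμ (ha μ) (hb μ)
  have hu' := hxy u ⟨μ, hu⟩ ((hg u ⟨μ, hu⟩).2 (Or.inl rfl))
  have hw' := hxy w ⟨μ, hw⟩ ((hg w ⟨μ, hw⟩).2 (Or.inr rfl))
  refine ⟨μ, hμ, ?_, ?_, ?_, fun i => ⟨ha i, hb i⟩⟩
  · rcases hu' with e | e
    · rw [← e]; exact hu
    · rcases hw' with e' | e'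
      · rw [← e']; exact hw
      · exact absurd (e.trans e'.symm) huw
  · rcases hu' with e | e
    · rcases hw' with e' | e'
      · exact absurd (e.trans e'.symm) huw
      · rw [← e']; exact hw
    · rw [← e]; exact hu
  · intro e
    rcases hu' with e1 | e1 <;> rcases hw' with e2 | e2
    · exact huw (e1.trans e2.symm)
    · exact huw (e1.trans (e.trans e2.symm))
    · exact huw (e1.trans (e.symm.trans e2.symm))
    · exact huw (e1.trans e2.symm)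

/-- the third vertex of `Q'` is on another rung -/
theorem lemB {a b : Fin 3 → V} {n : Fin 3 → ℕ} {P : Fin 3 → Set V} (h : Prism G a b n P)
    {Q Q' : Set V} (hQ : ∀ q ∈ Q, ∀ q' ∈ Q, q ≠ q' → ∃ i j, i ≠ j ∧ q ∈ P i ∧ q' ∈ P j)
    (hsub : (Q' \ Q).Subsingleton) {x y z : V} {μ : Fin 3} (hx : x ∈ Q') (hy : y ∈ Q')
    (hz : z ∈ Q') (hxy : x ≠ y) (hzx : z ≠ x) (hzy : z ≠ y) (hxμ : x ∈ P μ) (hyμ : y ∈ P μ) :
    ∃ ν, ν ≠ μ ∧ z ∈ P ν := by
  by_cases hxQ : x ∈ Q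
  · have hyQ : y ∉ Q := by
      intro hyQ
      obtain ⟨i, j, hij, hi, hj⟩ := hQ x hxQ y hyQ hxy
      exact hij ((h.rung hi hxμ).trans (h.rung hj hyμ).symm)
    have hzQ : z ∈ Q := by
      by_contra hzQ
      exact hzy (hsub ⟨hz, hzQ⟩ ⟨hy, hyQ⟩)
    obtain ⟨i, j, hij, hi, hj⟩ := hQ z hzQ x hxQ hzx
    refine ⟨i, ?_, hi⟩
    rw [← h.rung hj hxμ]
    exact hij
  · have hyQ : y ∈ Q := by
      by_contra hyQ
      exact hxy (hsub ⟨hx, hxQ⟩ ⟨hy, hyQ⟩)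
    have hzQ : z ∈ Q := by
      by_contra hzQ
      exact hzx (hsub ⟨hz, hzQ⟩ ⟨hx, hxQ⟩)
    obtain ⟨i, j, hij, hi, hj⟩ := hQ z hzQ y hyQ hzy
    refine ⟨i, ?_, hi⟩
    rw [← h.rung hj hyμ]
    exact hij

/-- (SB1) -/
theorem pf_SB1 (hDEG : T_DEG) (hPF : T_PF) (hPLL : T_PLL) : T_SB1 := by
  intro V G a b n P c J D Q D' Q' t hNOH hNOP hS hQ'K hex h2 hh2D
  by_contra hh2K
  obtain ⟨h, hhD, hhK⟩ := hex
  obtain ⟨a1, b1, n1, P1, c1, J1, hp1⟩ := hS.pc'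
  have hp := hS.pc
  have hPr := hp.pr.1
  have hPr1 := hp1.pr.1
  have hF := hPF V G a b n P c J D Q hp
  have hF1 := hPF V G a1 b1 n1 P1 c1 J1 D' Q' hp1
  have hQr := hF.2.2.2.2.2.2.2.2.1
  have hhD' := hhD
  have hh2D' := hh2D
  rw [hp1.hD] at hhD' hh2D'
  obtain ⟨k, hk, ehk⟩ := hhD'
  obtain ⟨l, hl, ehl⟩ := hh2D'
  have hkl : k ≠ l := by
    intro e
    apply hh2K
    rw [ehl, ← e, ← ehk]
    exact hhK
  obtain ⟨m, hmk, hml, hall⟩ := third k l hkl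
  have memc : ∀ i, i ∈ J1 → c1 i ∈ Q' := fun i hi => by
    rw [hp1.hQ]; exact Or.inl ⟨i, hi, rfl⟩
  have cP : ∀ i, c1 i ∈ P1 i := fun i => (hp1.nx i).2
  have aP : ∀ i, a1 i ∈ P1 i := fun i => hPr1.a_mem i
  -- neighbours of h in K
  have nbh : ∀ g ∈ ver P, G.Adj h g → g = a1 m ∨ g = c1 k := by
    intro g hg hadj
    rw [ehk] at hadj
    rcases hp1.nb k hk g hadj with e | ⟨j, hj, e⟩
    · exact Or.inr e
    · rcases hall j with e1 | e1 | e1
      · exact absurd e1 hj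
      · exact absurd (by rw [e, e1, ← ehl] at hg; exact hg) hh2K
      · exact Or.inl (by rw [e, e1])
  -- neighbours of h2
  have nbh2 : ∀ g, G.Adj h2 g → g = h ∨ g = a1 m ∨ g = c1 l := by
    intro g hadj
    rw [ehl] at hadj
    rcases hp1.nb l hl g hadj with e | ⟨j, hj, e⟩
    · exact Or.inr (Or.inr e)
    · rcases hall j with e1 | e1 | e1
      · exact Or.inl (by rw [e, e1, ehk])
      · exact absurd e1 hj
      · exact Or.inr (Or.inl (by rw [e, e1]))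
  obtain ⟨μ, hhμ, hmμ, hckμ, hmck, hcor⟩ := lemA hDEG hPr hhK nbh
  have adj2h : G.Adj h2 h := by rw [ehl, ehk]; exact hPr1.a_adj hkl.symm
  have adj2c : G.Adj h2 (c1 l) := by rw [ehl]; exact (hp1.nx l).1
  -- the vertex c1 l is on another rung
  have hz : (∃ ν, ν ≠ μ ∧ c1 l ∈ P ν) ∧ (m ∈ J1 → ∀ i, a1 m ≠ a i ∧ a1 m ≠ b i) := by
    by_cases hm : m ∈ J1
    · have nbm : ∀ g ∈ ver P, G.Adj (a1 m) g → g = h ∨ g = c1 m := by
        intro g hg hadj
        rcases hp1.nb m hm g hadj with e | ⟨j, hj, e⟩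
        · exact Or.inr e
        · rcases hall j with e1 | e1 | e1
          · exact Or.inl (by rw [e, e1, ehk])
          · exact absurd (by rw [e, e1, ← ehl] at hg; exact hg) hh2K
          · exact absurd e1 hj
      obtain ⟨μ', hmμ', hhμ', hcmμ', _, hcor'⟩ := lemA hDEG hPr ⟨μ, hmμ⟩ nbm
      have eμ : μ' = μ := hPr.rung hmμ' hmμ
      refine ⟨?_, fun _ => hcor'⟩
      refine lemB hPr hQr hS.sub (x := c1 k) (y := c1 m) (memc k hk) (memc m hm) (memc l hl)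
        ?_ ?_ ?_ hckμ (by rw [← eμ]; exact hcmμ')
      · exact hPr1.ne_of_mem hmk.symm (cP k) (cP m)
      · exact hPr1.ne_of_mem hkl.symm (cP l) (cP k)
      · exact hPr1.ne_of_mem hml.symm (cP l) (cP m)
    · refine ⟨?_, fun h => absurd h hm⟩
      refine lemB hPr hQr hS.sub (x := a1 m) (y := c1 k) ?_ (memc k hk) (memc l hl)
        hmck ?_ ?_ hmμ hckμ
      · rw [hp1.hQ]; exact Or.inr ⟨m, hm, rfl⟩
      · exact hPr1.ne_of_mem hml.symm (cP l) (aP m)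
      · exact hPr1.ne_of_mem hkl.symm (cP l) (cP k)
  obtain ⟨⟨ν, hνμ, hclν⟩, hcorm⟩ := hz
  -- final contradiction, for corners e i, e j adjacent
  have fin : ∀ e : Fin 3 → V, (∀ i, h ≠ e i) → (m ∈ J1 → ∀ i, a1 m ≠ e i) →
      (∀ i j, i ≠ j → G.Adj (e i) (e j)) →
      ¬ ∃ i j, i ≠ j ∧ G.Adj h2 (e i) ∧ G.Adj h2 (e j) := by
    rintro e he1 he2 he3 ⟨i, j, hij, hi, hj⟩
    have had := he3 i j hij
    by_cases hm : m ∈ J1
    · rcases nbh2 _ hi with q | q | q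
      · exact he1 i q.symm
      · exact he2 hm i q.symm
      · rcases nbh2 _ hj with q' | q' | q'
        · exact he1 j q'.symm
        · exact he2 hm j q'.symm
        · exact had.ne (q.trans q'.symm)
    · have hmQ : a1 m ∈ Q' := by rw [hp1.hQ]; exact Or.inr ⟨m, hm, rfl⟩
      have main : ¬ G.Adj (a1 m) (c1 l) := by
        intro hadj
        obtain ⟨i', j', _, hj', _, ej'⟩ := hF1.1 _ hmQ _ (memc l hl) hadj
        have : j' = l := hPr1.rung (by rw [ej']; exact aP j') (cP l)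
        exact hj' (by rw [this]; exact hl)
      rcases nbh2 _ hi with q | q | q
      · exact he1 i q.symm
      · rcases nbh2 _ hj with q' | q' | q'
        · exact he1 j q'.symm
        · exact had.ne (q.trans q'.symm)
        · rw [q, q'] at had
          exact main had
      · rcases nbh2 _ hj with q' | q' | q'
        · exact he1 j q'.symm
        · rw [q, q'] at had
          exact main had.symm
        · exact had.ne (q.trans q'.symm)
  have hPL := hPLL V G a b n P {h2} hNOH hNOP hp.pr (Cn_singleton h2)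
    (Set.disjoint_singleton_left.2 hh2K)
    ⟨μ, ν, hνμ.symm, ⟨h2, rfl, h, hhμ, adj2h⟩, ⟨h2, rfl, c1 l, hclν, adj2c⟩⟩
  rcases hPL with ⟨i, j, hij, ⟨d, hd, hdi⟩, ⟨d', hd', hdj⟩⟩ | ⟨i, j, hij, ⟨d, hd, hdi⟩, ⟨d', hd', hdj⟩⟩
  · rw [Set.mem_singleton_iff.1 hd] at hdi
    rw [Set.mem_singleton_iff.1 hd'] at hdj
    exact fin a (fun i => (hcor i).1) (fun hm i => (hcorm hm i).1) (fun i j => hPr.a_adj)
      ⟨i, j, hij, hdi, hdj⟩
  · rw [Set.mem_singleton_iff.1 hd] at hdi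
    rw [Set.mem_singleton_iff.1 hd'] at hdj
    exact fin b (fun i => (hcor i).2) (fun hm i => (hcorm hm i).2) (fun i j => hPr.b_adj)
      ⟨i, j, hij, hdi, hdj⟩

end Pool.Agent.H62.ER
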